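import Pool.Agent.PFC.StmtsB2

/-!
Squad PFC, row HSP (helper82): the rank of the intertwiners into a Higman projective lattice is the
dimension of the intertwiners of the special fibres.
-/

noncomputable section

namespace Pool.Agent.PFC.B2.H82HSP

open Pool.Agent.PFC.B1 Pool.Agent.PFC.B2

/-- A semilinear surjection with kernel `X M` computes the rank of the free module `M`. -/
theorem frk {F M V : Type} [Field F] [AddCommGroup M] [Module (PowerSeries F) M]
    [Module.Finite (PowerSeries F) M] [Module.Free (PowerSeries F) M] [AddCommGroup V] [Module F V]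
    (π : M → V) (hadd : ∀ x y, π (x + y) = π x + π y) (hs : Function.Surjective π)
    (hsm : ∀ (r : PowerSeries F) x, π (r • x) = PowerSeries.constantCoeff r • π x)
    (hk : ∀ x, π x = 0 → ∃ y, x = (PowerSeries.X : PowerSeries F) • y) :
    Module.finrank (PowerSeries F) M = Module.finrank F V := by
  classical
  let e := Module.finBasis (PowerSeries F) M
  have h0 : π 0 = 0 := by
    have h := hadd 0 0
    rw [add_zero] at h
    exact left_eq_add.mp h
  have hsum : ∀ (s : Finset (Fin (Module.finrank (PowerSeries F) M)))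
      (g : Fin (Module.finrank (PowerSeries F) M) → M), π (∑ i ∈ s, g i) = ∑ i ∈ s, π (g i) := by
    intro s g
    exact map_sum (AddMonoidHom.mk' π hadd) g s
  have hli : LinearIndependent F (fun i => π (e i)) := by
    rw [Fintype.linearIndependent_iff]
    intro c hc i
    have h1 : π (∑ i, PowerSeries.C (c i) • e i) = 0 := by
      rw [hsum, ← hc]
      refine Finset.sum_congr rfl fun i _ => ?_
      rw [hsm, PowerSeries.constantCoeff_C]
    obtain ⟨y, hy⟩ := hk _ h1
    have h2 := congrArg (fun z => e.repr z i) hy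
    simp only [map_sum, map_smul, Finsupp.coe_finsetSum, Finset.sum_apply, Finsupp.smul_apply,
      Module.Basis.repr_self, smul_eq_mul, Finsupp.single_apply, mul_ite, mul_one, mul_zero,
      Finset.sum_ite_eq', Finset.mem_univ, if_true] at h2
    have h3 := congrArg PowerSeries.constantCoeff h2
    rw [PowerSeries.constantCoeff_C, map_mul, PowerSeries.constantCoeff_X, zero_mul] at h3
    exact h3
  have hsp : ⊤ ≤ Submodule.span F (Set.range fun i => π (e i)) := by
    intro v _
    obtain ⟨x, rfl⟩ := hs v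
    rw [← e.sum_repr x, hsum]
    refine Submodule.sum_mem _ fun i _ => ?_
    rw [hsm]
    exact Submodule.smul_mem _ _ (Submodule.subset_span ⟨i, rfl⟩)
  rw [Module.finrank_eq_card_basis (Module.Basis.mk hli hsp), Fintype.card_fin]

section red

variable {F A' A T' N' T0 N0 : Type} [Field F] [Ring A'] [Algebra (PowerSeries F) A'] [Ring A]
    [Algebra F A] [AddCommGroup T'] [Module (PowerSeries F) T'] [AddCommGroup N']
    [Module (PowerSeries F) N'] [AddCommGroup T0] [Module F T0] [AddCommGroup N0]
    [Module F N0] {fb : Fib F A' A}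
    {τ' : Rp (PowerSeries F) A' (PowerSeries F) T'}
    {ν' : Rp (PowerSeries F) A' (PowerSeries F) N'} {τ0 : Rp F A F T0} {ν0 : Rp F A F N0}
    (st : Sf fb τ' τ0) (sn : Sf fb ν' ν0)

include sn in
theorem p_X (y : N') : sn.p ((PowerSeries.X : PowerSeries F) • y) = 0 := by
  rw [sn.sm, PowerSeries.constantCoeff_X, zero_smul]

/-- the reduction of a linear map -/
theorem exists_red (f : T' →ₗ[PowerSeries F] N') :
    ∃ f0 : T0 →ₗ[F] N0, ∀ x, f0 (st.p x) = sn.p (f x) := by
  have hs : ∀ y, st.p (Function.surjInv st.sur y) = y := Function.surjInv_eq st.sur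
  have key : ∀ x x', st.p x = st.p x' → sn.p (f x) = sn.p (f x') := by
    intro x x' h
    obtain ⟨y, hy⟩ := st.ker (x - x') (by rw [map_sub, h, sub_self])
    have h1 : sn.p (f (x - x')) = 0 := by
      rw [hy, map_smul]
      exact p_X sn _
    rw [map_sub, map_sub, sub_eq_zero] at h1
    exact h1
  refine ⟨{ toFun := fun y => sn.p (f (Function.surjInv st.sur y))
            map_add' := fun x y => ?_
            map_smul' := fun r x => ?_ }, fun x => key _ _ (hs _)⟩
  · rw [← map_add, ← map_add]
    exact key _ _ (by rw [hs, map_add, hs, hs])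
  · show sn.p (f (Function.surjInv st.sur (r • x))) = r • sn.p (f (Function.surjInv st.sur x))
    have h := key (Function.surjInv st.sur (r • x))
      ((PowerSeries.C r : PowerSeries F) • Function.surjInv st.sur x)
      (by rw [hs, st.sm, hs, PowerSeries.constantCoeff_C])
    rw [h, map_smul, sn.sm, PowerSeries.constantCoeff_C]

/-- the reduction of a linear map -/
def red (f : T' →ₗ[PowerSeries F] N') : T0 →ₗ[F] N0 := (exists_red st sn f).choose

theorem red_p (f : T' →ₗ[PowerSeries F] N') (x : T') : red st sn f (st.p x) = sn.p (f x) :=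
  (exists_red st sn f).choose_spec x

theorem red_hom {f : T' →ₗ[PowerSeries F] N'} (hf : IsHom τ' ν' f) :
    IsHom τ0 ν0 (red st sn f) := by
  intro a0 x0
  obtain ⟨a, rfl⟩ := fb.surj a0
  obtain ⟨x, rfl⟩ := st.sur x0
  rw [← st.eqv, red_p, red_p, hf, sn.eqv]

end red

theorem hsp (trh : TrhStmt) : HspStmt := by
  intro F A' A J T' N' T0 N0 _ _ _ _ _ _ _ _ _ _ _ _ _ _ _ _ _ _ d fb τ' ν' τ0 ν0 st sn hHP
  classical
  obtain ⟨a, ha⟩ := hHP
  unfold hd
  have hnoeth : IsNoetherian (PowerSeries F) (T' →ₗ[PowerSeries F] N') := inferInstance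
  have : Module.Finite (PowerSeries F) (Hm τ' ν') := inferInstance
  have : Module.Free (PowerSeries F) (Hm τ' ν') := inferInstance
  have hext : ∀ (g g' : T0 →ₗ[F] N0), (∀ x, g (st.p x) = g' (st.p x)) → g = g' := by
    intro g g' h
    apply LinearMap.ext
    intro x0
    obtain ⟨x, rfl⟩ := st.sur x0
    exact h x
  refine frk (M := Hm τ' ν') (V := Hm τ0 ν0)
    (fun f => ⟨red st sn f.1, red_hom st sn f.2⟩) ?_ ?_ ?_ ?_
  · intro f g
    apply Subtype.ext
    apply hext
    intro x
    show red st sn (f.1 + g.1) (st.p x) = red st sn f.1 (st.p x) + red st sn g.1 (st.p x)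
    rw [red_p, red_p, red_p, ← map_add]
    rfl
  · rintro ⟨g0, hg0⟩
    -- lift `g0` to a linear map
    let e := Module.Free.chooseBasis (PowerSeries F) T'
    have hn : ∀ i, ∃ n, sn.p n = g0 (st.p (e i)) := fun i => sn.sur _
    choose n hn using hn
    let g : T' →ₗ[PowerSeries F] N' := e.constr (PowerSeries F) n
    have hg : ∀ x, sn.p (g x) = g0 (st.p x) := by
      intro x
      rw [← e.sum_repr x, map_sum, map_sum, map_sum, map_sum]
      refine Finset.sum_congr rfl fun i _ => ?_
      rw [map_smul, sn.sm, st.sm, map_smul]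
      show _ • sn.p (e.constr (PowerSeries F) n (e i)) = _
      rw [e.constr_basis, hn]
    have hh := trh.1 (PowerSeries F) A' J (PowerSeries F) T' N' d τ' ν' (a ∘ₗ g)
    refine ⟨⟨d.tr τ' ν' (a ∘ₗ g), hh⟩, ?_⟩
    apply Subtype.ext
    apply hext
    intro x
    show red st sn (d.tr τ' ν' (a ∘ₗ g)) (st.p x) = g0 (st.p x)
    rw [red_p]
    have h1 : sn.p (d.tr ν' ν' a (g x)) = sn.p (g x) := by
      rw [ha, LinearMap.id_apply]
    rw [← hg, ← h1]
    show sn.p ((∑ i, (ν'.ρ (d.b i)) ∘ₗ (a ∘ₗ g) ∘ₗ (τ'.ρ (d.b' i))) x) =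
      sn.p ((∑ i, (ν'.ρ (d.b i)) ∘ₗ a ∘ₗ (ν'.ρ (d.b' i))) (g x))
    rw [LinearMap.sum_apply, LinearMap.sum_apply, map_sum, map_sum]
    refine Finset.sum_congr rfl fun i _ => ?_
    show sn.p (ν'.ρ (d.b i) (a (g (τ'.ρ (d.b' i) x)))) =
      sn.p (ν'.ρ (d.b i) (a (ν'.ρ (d.b' i) (g x))))
    have h2 : sn.p (g (τ'.ρ (d.b' i) x) - ν'.ρ (d.b' i) (g x)) = 0 := by
      rw [map_sub, hg, st.eqv, sn.eqv, hg, hg0, sub_self]
    obtain ⟨y, hy⟩ := sn.ker _ h2
    rw [← sub_eq_zero, ← map_sub, ← map_sub, ← map_sub, hy, map_smul, map_smul]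
    exact p_X sn _
  · intro r f
    apply Subtype.ext
    apply hext
    intro x
    show red st sn (r • f.1) (st.p x) = PowerSeries.constantCoeff r • red st sn f.1 (st.p x)
    rw [red_p, red_p, LinearMap.smul_apply, sn.sm]
  · rintro ⟨f, hf⟩ h0
    have h1 : ∀ x, sn.p (f x) = 0 := by
      intro x
      rw [← red_p st sn f x]
      have h2 := congrArg (fun g : Hm τ0 ν0 => g.1 (st.p x)) h0
      exact h2
    have h2 : ∀ x, ∃ y, f x = (PowerSeries.X : PowerSeries F) • y := fun x => sn.ker _ (h1 x)
    choose y hy using h2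
    have hX : (PowerSeries.X : PowerSeries F) ≠ 0 := PowerSeries.X_ne_zero
    have hc : ∀ u v : N', (PowerSeries.X : PowerSeries F) • u = (PowerSeries.X : PowerSeries F) • v →
        u = v := fun u v h => smul_right_injective N' hX h
    let f' : T' →ₗ[PowerSeries F] N' :=
      { toFun := y
        map_add' := fun u v => by
          apply hc
          rw [smul_add, ← hy, ← hy, ← hy, map_add]
        map_smul' := fun r u => by
          apply hc
          rw [RingHom.id_apply, smul_comm, ← hy, ← hy, map_smul] }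
    refine ⟨⟨f', fun b x => ?_⟩, ?_⟩
    · apply hc
      show (PowerSeries.X : PowerSeries F) • y (τ'.ρ b x) =
        (PowerSeries.X : PowerSeries F) • ν'.ρ b (y x)
      rw [← hy, ← map_smul, ← hy, hf]
    · apply Subtype.ext
      apply LinearMap.ext
      intro x
      exact hy x

end Pool.Agent.PFC.B2.H82HSP
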