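import Pool.Agent.PFC.StmtsB1

/-!
Squad PFC, row INP (helper82): from the output of part (0) to the input of the deformation.
-/

namespace Pool.Agent.PFC.B1.H82INP

open scoped TensorProduct

section

variable {F A G : Type} [Field F] [Ring A] [Algebra F A] [Group G]

theorem ma_expand [Fintype G] (x : MonoidAlgebra F G) :
    ∑ g, x.coeff g • MonoidAlgebra.of F G g = x := by
  classical
  apply MonoidAlgebra.coeff_injective
  ext h
  rw [MonoidAlgebra.coeff_sum, Finsupp.finsetSum_apply]
  rw [Finset.sum_eq_single h]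
  · simp [MonoidAlgebra.of_apply]
  · intro g _ hg
    simp [MonoidAlgebra.of_apply, hg]
  · intro hh; exact absurd (Finset.mem_univ _) hh

/-- the standard Frobenius system of a group algebra -/
noncomputable def gfs (F G : Type) [Field F] [Group G] [Fintype G] :
    FS F (MonoidAlgebra F G) G where
  lam :=
    { toFun := fun x => x.coeff 1
      map_add' := fun x y => by simp
      map_smul' := fun r x => by simp }
  b := fun g => MonoidAlgebra.of F G g
  b' := fun g => MonoidAlgebra.of F G g⁻¹
  h1 := fun x => by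
    conv_rhs => rw [← ma_expand x]
    refine Finset.sum_congr rfl fun g _ => ?_
    show (MonoidAlgebra.of F G g⁻¹ * x).coeff 1 • _ = _
    rw [MonoidAlgebra.of_apply, MonoidAlgebra.coeff_single_mul_apply, one_mul, inv_inv, mul_one]
  h2 := fun x => by
    conv_rhs => rw [← ma_expand x]
    rw [← Equiv.sum_comp (Equiv.inv G)]
    refine Finset.sum_congr rfl fun g _ => ?_
    show (x * MonoidAlgebra.of F G g⁻¹).coeff 1 • MonoidAlgebra.of F G g⁻¹⁻¹ = _
    rw [inv_inv, MonoidAlgebra.of_apply, MonoidAlgebra.coeff_mul_single_apply, mul_one, inv_inv,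
      one_mul]

/-- the projection to the group algebra -/
noncomputable def gpr [Fintype G] (α : G →* A) (lam : A →ₗ[F] F) : A →ₗ[F] MonoidAlgebra F G :=
  ∑ g, (lam ∘ₗ LinearMap.mulLeft F (α g⁻¹)).smulRight (MonoidAlgebra.of F G g)

theorem gpr_apply [Fintype G] (α : G →* A) (lam : A →ₗ[F] F) (x : A) :
    gpr α lam x = ∑ g, lam (α g⁻¹ * x) • MonoidAlgebra.of F G g := by
  simp [gpr]

theorem lift_of (α : G →* A) (g : G) :
    (MonoidAlgebra.lift F A G α) (MonoidAlgebra.of F G g) = α g := by
  simp

theorem frob [FiniteDimensional F A] (μ : A →ₗ[F] F) (hs : ∀ a b, μ (a * b) = μ (b * a))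
    (hn : ∀ a, (∀ b, μ (a * b) = 0) → a = 0) :
    ∃ (J : Type) (_ : Fintype J), Nonempty (FS F A J) := by
  classical
  let B : LinearMap.BilinForm F A := (LinearMap.mul F A).compr₂ μ
  have hB : ∀ a b, B a b = μ (a * b) := fun a b => rfl
  have hBn : B.Nondegenerate := by
    refine ⟨fun a ha => hn a fun b => ha b, fun a ha => hn a fun b => ?_⟩
    rw [hs]; exact ha b
  let e := Module.finBasis F A
  have h3 := LinearMap.BilinForm.apply_dualBasis_left hBn e
  set e' := B.dualBasis hBn e with he'
  refine ⟨Fin (Module.finrank F A), inferInstance, ⟨⟨μ, e, e', fun x => ?_, fun x => ?_⟩⟩⟩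
  · conv_rhs => rw [← e.sum_repr x]
    refine Finset.sum_congr rfl fun i _ => ?_
    congr 1
    rw [← hB]
    conv_lhs => rw [← e.sum_repr x]
    rw [map_sum, Finset.sum_eq_single i]
    · rw [map_smul, h3, if_pos rfl, smul_eq_mul, mul_one]
    · intro j _ hj
      rw [map_smul, h3, if_neg hj, smul_zero]
    · intro hh; exact absurd (Finset.mem_univ _) hh
  · conv_rhs => rw [← e'.sum_repr x]
    refine Finset.sum_congr rfl fun i _ => ?_
    congr 1
    rw [← hB]
    conv_lhs => rw [← e'.sum_repr x]
    rw [map_sum, LinearMap.sum_apply, Finset.sum_eq_single i]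
    · rw [map_smul, LinearMap.smul_apply, h3, if_pos rfl, smul_eq_mul, mul_one]
    · intro j _ hj
      rw [map_smul, LinearMap.smul_apply, h3, if_neg (Ne.symm hj), smul_zero]
    · intro hh; exact absurd (Finset.mem_univ _) hh

/-- the submodule of the relations `(a γ) ⊗ b = a ⊗ (γ b)` -/
def rel (α : G →* A) : Submodule F (A ⊗[F] A) :=
  Submodule.span F {z | ∃ a b g, z = (a * α g) ⊗ₜ[F] b - a ⊗ₜ[F] (α g * b)}

theorem sep (α : G →* A) (h : Pool.Agent.PFC.Sep F α) :
    ∃ (K : Type) (_ : Fintype K),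
      Nonempty (Sep (MonoidAlgebra F G) A K (MonoidAlgebra.lift F A G α).toRingHom) := by
  obtain ⟨K, iK, u, v, h1, h2⟩ := h
  refine ⟨K, iK, ⟨⟨u, v, h1, fun X _ B hB x => ?_⟩⟩⟩
  -- the relation in the universal quotient
  have h3 := h2 ((A ⊗[F] A) ⧸ rel (F := F) α)
    ((TensorProduct.mk F A A).compr₂ (rel (F := F) α).mkQ)
    (fun a b g => by
      show (rel (F := F) α).mkQ ((a * α g) ⊗ₜ[F] b) = (rel (F := F) α).mkQ (a ⊗ₜ[F] (α g * b))
      rw [← sub_eq_zero, ← map_sub, Submodule.mkQ_apply, Submodule.Quotient.mk_eq_zero]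
      exact Submodule.subset_span ⟨a, b, g, rfl⟩) x
  have h4 : (∑ k, (x * u k) ⊗ₜ[F] v k) - ∑ k, u k ⊗ₜ[F] (v k * x) ∈ rel (F := F) α := by
    rw [← Submodule.Quotient.mk_eq_zero, ← Submodule.mkQ_apply, map_sub, sub_eq_zero, map_sum,
      map_sum]
    exact h3
  have hal : ∀ (r : F), (MonoidAlgebra.lift F A G α).toRingHom
      (algebraMap F (MonoidAlgebra F G) r) = algebraMap F A r := fun r =>
    (MonoidAlgebra.lift F A G α).commutes r
  have hof : ∀ g, (MonoidAlgebra.lift F A G α).toRingHom (MonoidAlgebra.of F G g) = α g :=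
    fun g => lift_of α g
  have hbal : ∀ (r : F) (m n : A), B (r • m) n = B m (r • n) := by
    intro r m n
    have h := hB m (algebraMap F (MonoidAlgebra F G) r) n
    rw [hal] at h
    rw [Algebra.smul_def, Algebra.smul_def, Algebra.commutes, h]
  have hbg : ∀ (a : A) (g : G) (b : A), B (a * α g) b = B a (α g * b) := by
    intro a g b
    have h := hB a (MonoidAlgebra.of F G g) b
    rw [hof] at h
    exact h
  let Φ : A ⊗[F] A →+ X := TensorProduct.liftAddHom B hbal
  have hΦ : ∀ a b, Φ (a ⊗ₜ[F] b) = B a b := fun a b => TensorProduct.liftAddHom_tmul B hbal a b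
  have h5 : ∀ z ∈ rel (F := F) α, ∀ r : F, Φ (r • z) = 0 := by
    intro z hz
    unfold rel at hz
    induction hz using Submodule.span_induction with
    | mem z hz =>
      intro r
      obtain ⟨a, b, g, rfl⟩ := hz
      rw [smul_sub, map_sub, TensorProduct.smul_tmul', TensorProduct.smul_tmul', hΦ, hΦ,
        ← smul_mul_assoc, hbg, sub_self]
    | zero => intro r; rw [smul_zero, map_zero]
    | add x y _ _ hx hy => intro r; rw [smul_add, map_add, hx, hy, add_zero]
    | smul a x _ hx => intro r; rw [smul_smul]; exact hx _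
  have h6 := h5 _ h4 1
  rw [one_smul, map_sub, map_sum, map_sum, sub_eq_zero] at h6
  simp only [hΦ] at h6
  exact h6

end

theorem inp : InpStmt := by
  intro F A G _ _ _ _ _ α h
  obtain ⟨hf, hsep, ⟨μ, hμ1, hμ2⟩, ⟨lam, hl1, hl2, hl3, al, hal⟩⟩ := h
  have hj : ∀ g, (MonoidAlgebra.lift F A G α) (MonoidAlgebra.of F G g) = α g := lift_of α
  have hlam : ∀ g h : G, lam (α g⁻¹ * α h) = (MonoidAlgebra.of F G h).coeff g := by
    classical
    intro g h
    rw [← map_mul, MonoidAlgebra.of_apply, MonoidAlgebra.coeff_single, Finsupp.single_apply]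
    split_ifs with e
    · subst e; rw [inv_mul_cancel, map_one, hl1]
    · exact hl2 _ fun e' => e (inv_mul_eq_one.mp e').symm
  have hind : ∀ (X : Type) [AddCommGroup X] [Module F X] (f g : MonoidAlgebra F G →ₗ[F] X),
      (∀ h, f (MonoidAlgebra.of F G h) = g (MonoidAlgebra.of F G h)) → ∀ x, f x = g x := by
    intro X _ _ f g hfg x
    rw [← ma_expand x, map_sum, map_sum]
    refine Finset.sum_congr rfl fun h _ => ?_
    rw [map_smul, map_smul, hfg]
  have hpr : ∀ g x, gpr α lam (α g * x) = MonoidAlgebra.of F G g * gpr α lam x := by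
    intro g x
    rw [gpr_apply, gpr_apply, Finset.mul_sum, ← Equiv.sum_comp (Equiv.mulLeft g)]
    refine Finset.sum_congr rfl fun h _ => ?_
    show lam (α (g * h)⁻¹ * (α g * x)) • MonoidAlgebra.of F G (g * h) = _
    rw [← mul_assoc, ← map_mul, mul_inv_rev, inv_mul_cancel_right, mul_smul_comm,
      (MonoidAlgebra.of F G).map_mul]
  have hpr' : ∀ x g, gpr α lam (x * α g) = gpr α lam x * MonoidAlgebra.of F G g := by
    intro x g
    rw [gpr_apply, gpr_apply, Finset.sum_mul, ← Equiv.sum_comp (Equiv.mulRight g)]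
    refine Finset.sum_congr rfl fun h _ => ?_
    show lam (α (h * g)⁻¹ * (x * α g)) • MonoidAlgebra.of F G (h * g) = _
    rw [← mul_assoc, ← hl3, ← mul_assoc, ← map_mul, mul_inv_rev, mul_inv_cancel_left,
      smul_mul_assoc, (MonoidAlgebra.of F G).map_mul]
  let sp : Split (gfs F G) A :=
    { j := MonoidAlgebra.lift F A G α
      pr := gpr α lam
      pr_j := fun γ => by
        refine hind _ (gpr α lam ∘ₗ (MonoidAlgebra.lift F A G α).toLinearMap) LinearMap.id
          (fun h => ?_) γ
        show gpr α lam ((MonoidAlgebra.lift F A G α) (MonoidAlgebra.of F G h)) = _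
        rw [hj, gpr_apply]
        conv_rhs => rw [LinearMap.id_apply, ← ma_expand (MonoidAlgebra.of F G h)]
        refine Finset.sum_congr rfl fun g _ => ?_
        rw [hlam]
      pr_l := fun γ x => by
        refine hind _ (gpr α lam ∘ₗ LinearMap.mulRight F x ∘ₗ
          (MonoidAlgebra.lift F A G α).toLinearMap) (LinearMap.mulRight F (gpr α lam x))
          (fun h => ?_) γ
        show gpr α lam ((MonoidAlgebra.lift F A G α) (MonoidAlgebra.of F G h) * x) =
          MonoidAlgebra.of F G h * gpr α lam x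
        rw [hj, hpr]
      pr_r := fun x γ => by
        refine hind _ (gpr α lam ∘ₗ LinearMap.mulLeft F x ∘ₗ
          (MonoidAlgebra.lift F A G α).toLinearMap) (LinearMap.mulLeft F (gpr α lam x))
          (fun h => ?_) γ
        show gpr α lam (x * (MonoidAlgebra.lift F A G α) (MonoidAlgebra.of F G h)) =
          gpr α lam x * MonoidAlgebra.of F G h
        rw [hj, hpr']
      a := al
      a_id := fun x => by
        show ∑ g, ∑ h, (MonoidAlgebra.lift F A G α) (MonoidAlgebra.of F G g) *
          al ((MonoidAlgebra.lift F A G α) (MonoidAlgebra.of F G g⁻¹) * x *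
            (MonoidAlgebra.lift F A G α) (MonoidAlgebra.of F G h)) *
          (MonoidAlgebra.lift F A G α) (MonoidAlgebra.of F G h⁻¹) = _
        have h1 : (MonoidAlgebra.lift F A G α) (gpr α lam x) = ∑ g, lam (α g⁻¹ * x) • α g := by
          rw [gpr_apply, map_sum]
          refine Finset.sum_congr rfl fun g _ => ?_
          rw [map_smul, hj]
        rw [h1]
        refine Eq.trans ?_ (hal x)
        refine Finset.sum_congr rfl fun g _ => ?_
        rw [← Equiv.sum_comp (Equiv.inv G)]
        refine Finset.sum_congr rfl fun h _ => ?_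
        show (MonoidAlgebra.lift F A G α) (MonoidAlgebra.of F G g) *
          al ((MonoidAlgebra.lift F A G α) (MonoidAlgebra.of F G g⁻¹) * x *
            (MonoidAlgebra.lift F A G α) (MonoidAlgebra.of F G h⁻¹)) *
          (MonoidAlgebra.lift F A G α) (MonoidAlgebra.of F G h⁻¹⁻¹) = _
        rw [hj, hj, hj, hj, inv_inv] }
  refine ⟨gfs F G, sp, fun g => rfl, fun g => rfl, fun g => hj g, sep α hsep, ?_⟩
  have := hf
  exact frob μ hμ1 hμ2

end Pool.Agent.PFC.B1.H82INP
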